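import Mathlib
import Pool.Agent.Helper617.RM.Defs
import Pool.Agent.H362Z.EM.E

/-!
`RT²₂` is not a strong minimal cover of `EM` among the Ramsey-like statements, in any of the three
preorders: `RT²₂(1302)` is strictly below `RT²₂` and is not below `EM`.
-/

set_option autoImplicit false

namespace Pool.Agent.Results.MP_b4a791_lc.NotStrongCover

open Pool.Agent.Helper617.RM

/-- The Ramsey-like statements: `RT²₂`, `EM`, and `RT²₂(p)` for a non-constant pattern `p` (only the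
values `p i j` with `i < j` matter). -/
inductive RL : Type
  | rt : RL
  | em : RL
  | pat (l : ℕ) (p : Fin l → Fin l → Fin 2) (h : ∃ i j k m, i < j ∧ k < m ∧ p i j ≠ p k m) : RL

/-- The code `(x + y)² + x` of a pair in a structure. A set `F` is read as the colouring which gives
the pair `x < y` colour `1` if its code is in `F`, and colour `0` otherwise. -/
def code (N : L2Structure.{0}) (x y : N.M) : N.M := N.add (N.mul (N.add x y) (N.add x y)) x

/-- `H` avoids the pattern `p` for the colouring `F`. -/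
def Avoids (N : L2Structure.{0}) (F : Set N.M) {l : ℕ} (p : Fin l → Fin l → Fin 2)
    (H : Set N.M) : Prop :=
  ¬ ∃ x : Fin l → N.M, (∀ i, x i ∈ H) ∧
    ∀ i j, i < j → N.lt (x i) (x j) ∧ (code N (x i) (x j) ∈ F ↔ p i j = 1)

/-- The non-transitivity pattern `q`: `q 0 1 = q 1 2 = 0` and `q 0 2 = 1`. -/
def q (i j : Fin 3) : Fin 2 := if i = 0 ∧ j = 2 then 1 else 0

/-- `H` is a solution of the instance `F` of a Ramsey-like statement: `H` is unbounded, and it is
homogeneous (`RT²₂`), avoids `q` and `1 - q` (`EM`), or avoids `p` (`RT²₂(p)`). -/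
def Solves (N : L2Structure.{0}) : RL → Set N.M → Set N.M → Prop
  | .rt, F, H => (∀ n, ∃ x ∈ H, N.lt n x) ∧
      ∃ c : Fin 2, ∀ x ∈ H, ∀ y ∈ H, N.lt x y → (code N x y ∈ F ↔ c = 1)
  | .em, F, H => (∀ n, ∃ x ∈ H, N.lt n x) ∧ Avoids N F q H ∧ Avoids N F (fun i j => 1 - q i j) H
  | .pat _ p _, F, H => (∀ n, ∃ x ∈ H, N.lt n x) ∧ Avoids N F p H

/-- The statement `s` is true in the structure `N`. -/
def Holds (N : L2Structure.{0}) (s : RL) : Prop := ∀ F ∈ N.Sets, ∃ H ∈ N.Sets, Solves N s F H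

/-- The `ω`-structure with the standard natural numbers whose set variables range over `I`. -/
def omegaModel (I : Set (Set ℕ)) : L2Structure.{0} :=
  ⟨ℕ, 0, 1, fun a b => a + b, fun a b => a * b, fun a b => a < b, I⟩

/-- Preorder (i): `A → B` is true in every model of `RCA₀` (by completeness, `RCA₀ ⊢ A → B`). -/
def GeRCA (A B : RL) : Prop := ∀ N : L2Structure.{0}, IsModelRCA0 N → Holds N A → Holds N B

/-- Preorder (ii): every `ω`-model of `RCA₀ + A` satisfies `B`. -/
def GeOmega (A B : RL) : Prop :=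
  ∀ I, IsModelRCA0 (omegaModel I) → Holds (omegaModel I) A → Holds (omegaModel I) B

open Classical in
/-- The characteristic function of a set of numbers. -/
noncomputable def chi (X : Set ℕ) : ℕ →. ℕ := fun n => Part.some (if n ∈ X then 1 else 0)

/-- Preorder (iii): `B` is computably reducible to `A`. -/
def GeComp (A B : RL) : Prop :=
  ∀ X : Set ℕ, ∃ Y : Set ℕ, RecursiveIn {chi X} (chi Y) ∧
    ∀ H : Set ℕ, Solves (omegaModel Set.univ) A Y H →
      ∃ G : Set ℕ, RecursiveIn {chi X, chi H} (chi G) ∧ Solves (omegaModel Set.univ) B X G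

/-- The strict part of a preorder. -/
def Gt (ge : RL → RL → Prop) (a b : RL) : Prop := ge a b ∧ ¬ ge b a

/-- `a` is a strong minimal cover of `b`. -/
def StrongMinCover (ge : RL → RL → Prop) (a b : RL) : Prop :=
  Gt ge a b ∧ ∀ c, Gt ge a c → ge b c

/-- The statement `RT²₂(1302)`: the pair `i < j` has colour `0` iff `π i < π j`, for
`π = 1, 3, 0, 2`. -/
def rt1302 : RL :=
  .pat 4 (fun i j => if (![1, 3, 0, 2] : Fin 4 → ℕ) i < ![1, 3, 0, 2] j then 0 else 1)
    ⟨0, 1, 0, 2, by decide⟩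

open Pool.Agent.H362Z.PRT Pool.Agent.H362Z.EM in
/-- In each of the three preorders, `RT²₂ > EM`, `RT²₂ > RT²₂(1302)`, `EM` is not above
`RT²₂(1302)`, and so `RT²₂` is not a strong minimal cover of `EM`. -/
theorem result : ∀ ge ∈ ({GeRCA, GeOmega, GeComp} : Set (RL → RL → Prop)),
    Gt ge .rt .em ∧ Gt ge .rt rt1302 ∧ ¬ ge .em rt1302 ∧ ¬ StrongMinCover ge .rt .em := by
  classical
  have hom : ∀ (N : L2Structure.{0}) (s : RL) (F H : Set N.M), Solves N .rt F H →
      Solves N s F H := by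
    intro N s F H h
    have key : ∀ (l : ℕ) (p : Fin l → Fin l → Fin 2),
        (∃ i j k m, i < j ∧ k < m ∧ p i j ≠ p k m) → Avoids N F p H := by
      rintro l p ⟨i, j, k, m, h1, h2, h3⟩ ⟨x, h4, h5⟩
      obtain ⟨c, hc⟩ := h.2
      have e1 := (h5 i j h1).2.symm.trans (hc _ (h4 i) _ (h4 j) (h5 i j h1).1)
      have e2 := (h5 k m h2).2.symm.trans (hc _ (h4 k) _ (h4 m) (h5 k m h2).1)
      have e3 := e1.trans e2.symm
      revert h3 e3
      generalize p i j = a
      generalize p k m = b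
      revert a b
      decide
    cases s with
    | rt => exact h
    | em => exact ⟨h.1, key 3 _ ⟨0, 1, 0, 2, by decide⟩, key 3 _ ⟨0, 1, 0, 2, by decide⟩⟩
    | pat l p hp => exact ⟨h.1, key l p hp⟩
  have chi1 : ∀ (N : SA) (X : Set ℕ), X ∈ sets N ↔ CE N fun x : ℕ × ℕ => x.2 ∈ chi X x.1 := by
    intro N X
    constructor
    · intro h
      refine (((h.1.comp (f := fun x : ℕ × ℕ => x.1) (by fun_prop)).and
        (CE.eq (f := fun x : ℕ × ℕ => x.2) (g := fun _ => 1) (by fun_prop) (by fun_prop))).or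
        ((h.2.comp (f := fun x : ℕ × ℕ => x.1) (by fun_prop)).and
        (CE.eq (f := fun x : ℕ × ℕ => x.2) (g := fun _ => 0) (by fun_prop) (by fun_prop)))).of_iff
        fun x => ?_
      by_cases hx : x.1 ∈ X <;> simp [chi, hx]
    · intro h
      exact ⟨(h.comp (f := fun x : ℕ => (x, 1)) (by fun_prop)).of_iff fun x => by
          by_cases hx : x ∈ X <;> simp [chi, hx],
        (h.comp (f := fun x : ℕ => (x, 0)) (by fun_prop)).of_iff fun x => by
          by_cases hx : x ∈ X <;> simp [chi, hx]⟩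
  have sol : ∀ (I : Set (Set ℕ)) (s : RL) (F H : Set ℕ),
      Solves (omegaModel I) s F H ↔ Solves (omegaModel Set.univ) s F H := by
    intro I s F H
    cases s <;> exact Iff.rfl
  have toT : ∀ (N : SA) (F : Set ℕ), F ∈ sets N → ∃ T : ℕ × ℕ → Bool, InM N T ∧
      ∀ x y, T (x, y) = true ↔ (x + y) * (x + y) + x ∈ F := fun N F hF =>
    ⟨fun x => decide ((x.1 + x.2) * (x.1 + x.2) + x.1 ∈ F),
      Dec.inM (Dec.comp hF (f := fun x : ℕ × ℕ => (x.1 + x.2) * (x.1 + x.2) + x.1) (by fun_prop)),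
      fun x y => by simp⟩
  have toF : ∀ (N : SA) (T : ℕ × ℕ → Bool), InM N T → ∃ F ∈ sets N,
      ∀ x y, T (x, y) = true ↔ (x + y) * (x + y) + x ∈ F := by
    intro N T hT
    refine ⟨{n | ∃ x < n + 1, ∃ y < n + 1, (x + y) * (x + y) + x = n ∧ T (x, y) = true},
      Dec.bex (p := fun n x => ∃ y < n + 1, (x + y) * (x + y) + x = n ∧ T (x, y) = true)
        (by fun_prop) (Dec.bex (p := fun (a : ℕ × ℕ) y =>
          (a.2 + y) * (a.2 + y) + a.2 = a.1 ∧ T (a.2, y) = true) (by fun_prop)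
          ((Dec.eq (by fun_prop) (by fun_prop)).and (Dec.eq (by fun_prop) (by fun_prop)))),
      fun x y => ⟨fun h => ⟨x, by omega, y, by nlinarith, rfl, h⟩, ?_⟩⟩
    rintro ⟨a, -, b, -, e, h⟩
    have h1 : a + b = x + y := by
      rcases lt_trichotomy (a + b) (x + y) with h2 | h2 | h2
      · nlinarith
      · exact h2
      · nlinarith
    rw [h1] at e
    have h2 : a = x := by omega
    have h3 : b = y := by omega
    rwa [← h2, ← h3]
  have toH : ∀ (N : SA) (H : Set ℕ), H ∈ sets N → (∀ n, ∃ x ∈ H, n < x) →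
      InM N (fun n => decide (n ∈ H)) ∧ Inf fun n => decide (n ∈ H) := fun N H h1 h2 =>
    ⟨Dec.inM h1, fun n => by
      obtain ⟨y, e1, e2⟩ := h2 n
      exact ⟨y, e2.le, by simpa using e1⟩⟩
  have ofG : ∀ (N : SA) (G : ℕ → Bool), InM N G → Inf G →
      {n | G n = true} ∈ sets N ∧ ∀ n, ∃ x ∈ {n | G n = true}, n < x := fun N G h1 h2 =>
    ⟨Dec.eq h1 (InM.const _), fun n => by
      obtain ⟨y, e1, e2⟩ := h2 (n + 1)
      exact ⟨y, e2, e1⟩⟩
  have m1 : ∃ N : SA, Holds (omegaModel (sets N)) .em ∧ ¬ Holds (omegaModel (sets N)) rt1302 := by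
    obtain ⟨N, f, hf, h1, h2⟩ := exists_model
    refine ⟨N, fun F hF => ?_, fun h => ?_⟩
    · obtain ⟨T, e1, e2⟩ := toT N F hF
      obtain ⟨G, e3, e4, e5⟩ := h1 T e1
      refine ⟨_, (ofG N G e3 e4).1, (ofG N G e3 e4).2, ?_, ?_⟩ <;> rintro ⟨x, a1, a2⟩ <;>
        have b1 := a2 0 1 (by decide) <;> have b2 := a2 1 2 (by decide) <;>
        have b3 := a2 0 2 (by decide) <;>
        have b4 := e5 (x 0) (x 1) (x 2) b1.1 b2.1 (a1 0) (a1 1) (a1 2) <;>
        have c1 := (e2 _ _).trans b1.2 <;> have c2 := (e2 _ _).trans b2.2 <;>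
        have c3 := (e2 _ _).trans b3.2 <;> revert b4 c1 c2 c3 <;>
        generalize T (x 0, x 1) = u <;> generalize T (x 1, x 2) = v <;>
        generalize T (x 0, x 2) = w <;> revert u v w <;> decide
    · obtain ⟨F, e1, e2⟩ := toF N f hf
      obtain ⟨H, e3, e4, e5⟩ := h F e1
      obtain ⟨x, a1, a2⟩ := h2 _ (toH N H e3 e4).1 (toH N H e3 e4).2 [1, 3, 0, 2] (by decide)
      refine e5 ⟨fun i => x i, fun i => of_decide_eq_true (a1 i i.2), fun i j hij =>
        ⟨(a2 i j hij j.2).1, (e2 _ _).symm.trans ?_⟩⟩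
      rw [(a2 i j hij j.2).2]
      revert i j
      decide
  have m2 : ∃ N : SA, Holds (omegaModel (sets N)) rt1302 ∧ ¬ Holds (omegaModel (sets N)) .rt := by
    obtain ⟨N, f, hf, h1, h2⟩ := exists_model_av
    refine ⟨N, fun F hF => ?_, fun h => ?_⟩
    · obtain ⟨T, e1, e2⟩ := toT N F hF
      obtain ⟨G, e3, e4, e5⟩ := h1 T e1
      refine ⟨_, (ofG N G e3 e4).1, (ofG N G e3 e4).2, ?_⟩
      rintro ⟨x, a1, a2⟩
      have b := e5 (x 0) (x 1) (x 2) (x 3) (a2 0 1 (by decide)).1 (a2 1 2 (by decide)).1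
        (a2 2 3 (by decide)).1 (a1 0) (a1 1) (a1 2) (a1 3)
      have c1 := (e2 _ _).trans (a2 0 1 (by decide)).2
      have c2 := (e2 _ _).trans (a2 0 2 (by decide)).2
      have c3 := (e2 _ _).trans (a2 1 2 (by decide)).2
      have c4 := (e2 _ _).trans (a2 0 3 (by decide)).2
      have c5 := (e2 _ _).trans (a2 1 3 (by decide)).2
      have c6 := (e2 _ _).trans (a2 2 3 (by decide)).2
      exact absurd (c6.1 (b (Bool.eq_false_iff.2 fun h => absurd (c1.1 h) (by decide))
        (c2.2 (by decide)) (c3.2 (by decide))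
        (Bool.eq_false_iff.2 fun h => absurd (c4.1 h) (by decide)) (c5.2 (by decide)))) (by decide)
    · obtain ⟨F, e1, e2⟩ := toF N f hf
      obtain ⟨H, e3, e4, c, e5⟩ := h F e1
      obtain ⟨x, y, a1, a2, a3, a4⟩ := h2 _ (toH N H e3 e4).1 (toH N H e3 e4).2 (decide (c ≠ 1))
      have := (e2 x y).trans (e5 x (of_decide_eq_true a2) y (of_decide_eq_true a3) a1)
      rw [a4] at this
      simp at this
  have main : ∀ ge : RL → RL → Prop, (∀ s, ge .rt s) → (∀ A B (N : SA), ge A B →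
      Holds (omegaModel (sets N)) A → Holds (omegaModel (sets N)) B) →
      Gt ge .rt .em ∧ Gt ge .rt rt1302 ∧ ¬ ge .em rt1302 ∧ ¬ StrongMinCover ge .rt .em := by
    intro ge h1 h2
    obtain ⟨N, a1, a2⟩ := m1
    obtain ⟨N', a3, a4⟩ := m2
    have b1 : Gt ge .rt rt1302 := ⟨h1 _, fun h => a4 (h2 _ _ _ h a3)⟩
    have b2 : ¬ ge .em rt1302 := fun h => a2 (h2 _ _ _ h a1)
    exact ⟨⟨h1 _, fun h => a2 (h2 _ _ _ (h1 _) (h2 _ _ _ h a1))⟩, b1, b2, fun h => b2 (h.2 _ b1)⟩
  have up : ∀ (N : L2Structure.{0}) (s : RL), Holds N .rt → Holds N s := fun N s h F hF =>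
    (h F hF).imp fun H hH => ⟨hH.1, hom N s F H hH.2⟩
  rintro ge (rfl | rfl | rfl)
  · exact main _ (fun s N _ => up N s) fun A B N h => h _ (isModel N)
  · exact main _ (fun s I _ => up _ s) fun A B N h => h _ (isModel N)
  · refine main _ (fun s X => ⟨X, RecursiveIn.iff_nat.2 (.oracle _ rfl), fun H hH =>
      ⟨H, RecursiveIn.iff_nat.2 (.oracle _ (by simp)), hom (omegaModel Set.univ) s X H hH⟩⟩) fun A B N h hA X hX => ?_
    obtain ⟨Y, h1, h2⟩ := h X
    have h3 : Y ∈ sets N := (chi1 N Y).2 (ce_of_recursiveIn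
      (fun g hg => by rw [Set.mem_singleton_iff.1 hg]; exact (chi1 N X).1 hX)
      (RecursiveIn.iff_nat.1 h1))
    obtain ⟨H, h4, h5⟩ := hA Y h3
    obtain ⟨G, h6, h7⟩ := h2 H ((sol _ _ _ _).1 h5)
    refine ⟨G, (chi1 N G).2 (ce_of_recursiveIn ?_ (RecursiveIn.iff_nat.1 h6)), (sol _ _ _ _).2 h7⟩
    rintro g (rfl | rfl)
    · exact (chi1 N X).1 hX
    · exact (chi1 N H).1 h4

end Pool.Agent.Results.MP_b4a791_lc.NotStrongCover
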